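import Pool.Agent.X270.Comm.Dich

/-!
# Groups of almost similarities of a Cantor-like space
-/

set_option autoImplicit false

open scoped Classical Pointwise

namespace Pool.Agent.X270.Comm

universe u v w

section

variable {C : Type u} {D : Type v}

theorem ais (f : Equiv.Perm C) (x : C) : f (f⁻¹ x) = x := Equiv.apply_symm_apply f x

theorem ias (f : Equiv.Perm C) (x : C) : f⁻¹ (f x) = x := Equiv.symm_apply_apply f x

/-- the maps `x ↦ u x` -/
def cone (e : D × C ≃ C) : List D → C → C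
  | [] => id
  | d :: u => fun x => e (d, cone e u x)

theorem cone_append (e : D × C ≃ C) (u w : List D) (x : C) :
    cone e (u ++ w) x = cone e u (cone e w x) := by
  induction u with
  | nil => rfl
  | cons d u ih =>
    change e (d, cone e (u ++ w) x) = e (d, cone e u (cone e w x))
    rw [ih]

/-- `Γ` is self-similar -/
def SelfSimilar (e : D × C ≃ C) (Γ : Subgroup (Equiv.Perm C)) : Prop :=
  ∀ γ ∈ Γ, ∀ d : D, ∃ d' : D, ∃ γ' ∈ Γ, ∀ x, γ (e (d, x)) = e (d', γ' x)

/-- `g` maps the cone of `u` by a similarity -/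
def Good (e : D × C ≃ C) (Γ : Subgroup (Equiv.Perm C)) (g : Equiv.Perm C) (u : List D) : Prop :=
  ∃ w : List D, ∃ γ ∈ Γ, ∀ x, g (cone e u x) = cone e w (γ x)

variable {e : D × C ≃ C} {Γ : Subgroup (Equiv.Perm C)}

theorem ss_word (hΓ : SelfSimilar e Γ) (u : List D) : ∀ γ ∈ Γ, ∃ w : List D,
    w.length = u.length ∧ ∃ γ' ∈ Γ, ∀ x, γ (cone e u x) = cone e w (γ' x) := by
  induction u with
  | nil => exact fun γ hγ => ⟨[], rfl, γ, hγ, fun x => rfl⟩
  | cons d u ih =>
    intro γ hγ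
    obtain ⟨d', γ', hγ', h⟩ := hΓ γ hγ d
    obtain ⟨w, hw, γ'', hγ'', h'⟩ := ih γ' hγ'
    refine ⟨d' :: w, by simp [hw], γ'', hγ'', fun x => ?_⟩
    change γ (e (d, cone e u x)) = e (d', cone e w (γ'' x))
    rw [h, h']

theorem Good.append (hΓ : SelfSimilar e Γ) {g : Equiv.Perm C} {u : List D} (h : Good e Γ g u)
    (t : List D) : Good e Γ g (u ++ t) := by
  obtain ⟨w, γ, hγ, hw⟩ := h
  obtain ⟨t', -, γ', hγ', ht⟩ := ss_word hΓ t γ hγ
  refine ⟨w ++ t', γ', hγ', fun x => ?_⟩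
  rw [cone_append, hw, ht, cone_append]

theorem cone_inj [Nontrivial D] [Nonempty C] (u : List D) : ∀ (w : List D) (γ : Equiv.Perm C),
    (∀ x, cone e u x = cone e w (γ x)) → u = w := by
  induction u with
  | nil =>
    intro w γ h
    cases w with
    | nil => rfl
    | cons d w =>
      exfalso
      obtain ⟨d', hd⟩ := exists_ne d
      obtain ⟨c⟩ := (inferInstance : Nonempty C)
      have h1 : e (d', c) = e (d, cone e w (γ (e (d', c)))) := h (e (d', c))
      exact hd (congrArg Prod.fst (e.injective h1))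
  | cons d u ih =>
    intro w γ h
    cases w with
    | nil =>
      exfalso
      obtain ⟨d', hd⟩ := exists_ne d
      obtain ⟨c⟩ := (inferInstance : Nonempty C)
      have h1 : e (d, cone e u (γ.symm (e (d', c)))) = γ (γ.symm (e (d', c))) :=
        h (γ.symm (e (d', c)))
      rw [Equiv.apply_symm_apply] at h1
      exact hd (congrArg Prod.fst (e.injective h1)).symm
    | cons d' w =>
      have h1 : ∀ x, e (d, cone e u x) = e (d', cone e w (γ x)) := h
      obtain ⟨c⟩ := (inferInstance : Nonempty C)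
      have h2 : d = d' := congrArg Prod.fst (e.injective (h1 c))
      subst h2
      rw [ih w γ fun x => congrArg Prod.snd (e.injective (h1 x))]

theorem level (e : D × C ≃ C) (N : ℕ) : ∀ y : C, ∃ u : List D, u.length = N ∧
    ∃ x, cone e u x = y := by
  induction N with
  | zero => exact fun y => ⟨[], rfl, y, rfl⟩
  | succ N ih =>
    intro y
    obtain ⟨u, hu, x, hx⟩ := ih (e.symm y).2
    refine ⟨(e.symm y).1 :: u, by simp [hu], x, ?_⟩
    change e ((e.symm y).1, cone e u x) = y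
    rw [hx, Prod.mk.eta, Equiv.apply_symm_apply]

/-- the class of the maps `x ↦ u γ(x)` -/
def cl (e : D × C ≃ C) (Γ : Subgroup (Equiv.Perm C)) (u : List D) : Set (C → C) :=
  {f | ∃ γ ∈ Γ, ∀ x, f x = cone e u (γ x)}

/-- the set of these classes -/
def cls (e : D × C ≃ C) (Γ : Subgroup (Equiv.Perm C)) : Set (Set (C → C)) :=
  {S | ∃ u, S = cl e Γ u}

theorem cl_inj [Nontrivial D] [Nonempty C] {u w : List D} (h : cl e Γ u = cl e Γ w) : u = w := by
  have h1 : cone e u ∈ cl e Γ u := ⟨1, Γ.one_mem, fun x => rfl⟩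
  rw [h] at h1
  obtain ⟨γ, -, h2⟩ := h1
  exact cone_inj u w γ h2

theorem smul_cl (g : Equiv.Perm C) (u w : List D) :
    g • cl e Γ u = cl e Γ w ↔ ∃ γ ∈ Γ, ∀ x, g (cone e u x) = cone e w (γ x) := by
  constructor
  · intro h
    have h1 : cone e u ∈ cl e Γ u := ⟨1, Γ.one_mem, fun x => rfl⟩
    have h2 : g • cone e u ∈ g • cl e Γ u := Set.smul_mem_smul_set h1
    rw [h] at h2
    exact h2
  · rintro ⟨γ, hγ, h⟩
    ext f
    rw [Set.mem_smul_set_iff_inv_smul_mem]
    constructor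
    · rintro ⟨γ', hγ', h'⟩
      refine ⟨γ * γ', Γ.mul_mem hγ hγ', fun x => ?_⟩
      have h1 : g⁻¹ (f x) = cone e u (γ' x) := h' x
      rw [Equiv.Perm.mul_apply, ← h, ← h1, ais]
    · rintro ⟨γ', hγ', h'⟩
      refine ⟨γ⁻¹ * γ', Γ.mul_mem (Γ.inv_mem hγ) hγ', fun x => ?_⟩
      change g⁻¹ (f x) = _
      rw [h', Equiv.Perm.inv_eq_iff_eq, h, Equiv.Perm.mul_apply, ais]

theorem smul_cl_mem (g : Equiv.Perm C) (u : List D) :
    g • cl e Γ u ∈ cls e Γ ↔ Good e Γ g u := by
  constructor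
  · rintro ⟨w, hw⟩
    exact ⟨w, (smul_cl g u w).1 hw⟩
  · rintro ⟨w, hw⟩
    exact ⟨w, (smul_cl g u w).2 hw⟩

variable {G : Type w} [Group G]

/-- the set of the cones not mapped by similarities -/
def bad (e : D × C ≃ C) (Γ : Subgroup (Equiv.Perm C)) (g : Equiv.Perm C) : Set (List D) :=
  {u | ¬ Good e Γ g u}

/-- the action on the sets of maps -/
@[reducible] def actS (φ : G →* Equiv.Perm C) : MulAction G (Set (C → C)) :=
  MulAction.compHom (Set (C → C)) φ

theorem commensurated (φ : G →* Equiv.Perm C) (hφ : ∀ g, (bad e Γ (φ g)).Finite) :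
    @Commensurated G _ (Set (C → C)) (actS φ) (cls e Γ) := by
  let _ := actS φ
  intro g
  have h1 := (hφ g⁻¹).image (cl e Γ)
  have h2 := (hφ g).image fun u => φ g • cl e Γ u
  refine (h1.union h2).subset ?_
  intro S hS
  have hS' : ¬ (φ g⁻¹ • S ∈ cls e Γ ↔ S ∈ cls e Γ) := hS
  by_cases h : S ∈ cls e Γ
  · left
    obtain ⟨u, rfl⟩ := h
    refine ⟨u, fun hg => hS' ⟨fun _ => ⟨u, rfl⟩, fun _ => (smul_cl_mem _ u).2 hg⟩, rfl⟩
  · right
    have h3 : φ g⁻¹ • S ∈ cls e Γ := by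
      by_contra h4
      exact hS' ⟨fun h5 => absurd h5 h4, fun h5 => absurd h5 h⟩
    obtain ⟨u, hu⟩ := h3
    have h4 : S = φ g • cl e Γ u := by
      rw [← hu, ← mul_smul, ← map_mul, mul_inv_cancel, map_one, one_smul]
    refine ⟨u, fun hg => h ?_, h4.symm⟩
    rw [h4]
    exact (smul_cl_mem _ u).2 hg

theorem card_bad [Nontrivial D] [Nonempty C] (φ : G →* Equiv.Perm C)
    (hφ : ∀ g, (bad e Γ (φ g)).Finite) (g : G) :
    (bad e Γ (φ g)).ncard ≤ (@moved G _ (Set (C → C)) (actS φ) (cls e Γ) g⁻¹).ncard := by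
  let _ := actS φ
  have h1 : cl e Γ '' bad e Γ (φ g) ⊆ moved (cls e Γ) g⁻¹ := by
    rintro _ ⟨u, hu, rfl⟩
    change ¬ (φ (g⁻¹)⁻¹ • cl e Γ u ∈ cls e Γ ↔ cl e Γ u ∈ cls e Γ)
    rw [inv_inv, smul_cl_mem]
    exact fun h => hu (h.2 ⟨u, rfl⟩)
  have h2 : (cl e Γ '' bad e Γ (φ g)).ncard = (bad e Γ (φ g)).ncard :=
    Set.ncard_image_of_injective _ fun u w h => cl_inj h
  rw [← h2]
  exact Set.ncard_le_ncard h1 (commensurated φ hφ g⁻¹)

theorem length_lt_of_bad (hΓ : SelfSimilar e Γ) {g : Equiv.Perm C} (hf : (bad e Γ g).Finite)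
    {u : List D} (hu : u ∈ bad e Γ g) : u.length < (bad e Γ g).ncard := by
  have h1 : (fun i => u.take i) '' (Finset.range (u.length + 1) : Set ℕ) ⊆ bad e Γ g := by
    rintro _ ⟨i, -, rfl⟩ hgood
    apply hu
    have := hgood.append hΓ (u.drop i)
    rwa [List.take_append_drop] at this
  have h2 : ((fun i => u.take i) '' (Finset.range (u.length + 1) : Set ℕ)).ncard =
      u.length + 1 := by
    rw [Set.InjOn.ncard_image, Set.ncard_coe_finset, Finset.card_range]
    intro i hi j hj hij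
    have hi' : i < u.length + 1 := by simpa using hi
    have hj' : j < u.length + 1 := by simpa using hj
    have h3 := congrArg List.length hij
    simp only [List.length_take] at h3
    omega
  have h3 := Set.ncard_le_ncard h1 hf
  omega

/-- **elements with bounded powers have a power which preserves the cones of some level and acts on
them by elements of `Γ`** -/
theorem elliptic [Nontrivial D] [Nonempty C] [Finite D] (hΓ : SelfSimilar e Γ)
    (φ : G →* Equiv.Perm C) (hφ : ∀ g, (bad e Γ (φ g)).Finite) (g : G) (B : ℕ)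
    (hB : ∀ m : ℕ, (@moved G _ (Set (C → C)) (actS φ) (cls e Γ) (g ^ m)).ncard ≤ B) :
    ∃ k : ℕ, 0 < k ∧ ∀ u : List D, u.length = B →
      ∃ γ ∈ Γ, ∀ x, φ (g ^ k) (cone e u x) = cone e u (γ x) := by
  let _ := actS φ
  have hC := commensurated φ hφ
  have b1 : ∀ (m : ℕ) (u : List D), B ≤ u.length → Good e Γ (φ (g ^ m)) u := by
    intro m u hu
    by_contra hbad
    have h1 := length_lt_of_bad hΓ (hφ _) (show u ∈ bad e Γ (φ (g ^ m)) from hbad)
    have h2 := card_bad φ hφ (g ^ m)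
    have h3 := moved_inv hC (g ^ m)
    have h4 := hB m
    omega
  have b2 : ∀ (m : ℕ) (u : List D), B ≤ u.length → Good e Γ (φ (g ^ m)⁻¹) u := by
    intro m u hu
    by_contra hbad
    have h1 := length_lt_of_bad hΓ (hφ _) (show u ∈ bad e Γ (φ (g ^ m)⁻¹) from hbad)
    have h2 := card_bad φ hφ (g ^ m)⁻¹
    rw [inv_inv] at h2
    have h4 := hB m
    omega
  -- the images have bounded length
  have key : ∀ (m : ℕ) (u : {u : List D // u.length = B}), ∃ w : {w : List D // w.length ≤ 2 * B},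
      ∃ γ ∈ Γ, ∀ x, φ (g ^ m) (cone e u.1 x) = cone e w.1 (γ x) := by
    rintro m ⟨u, hu⟩
    obtain ⟨w, γ, hγ, hw⟩ := b1 m u hu.ge
    refine ⟨⟨w, ?_⟩, γ, hγ, hw⟩
    by_contra hlong
    push Not at hlong
    obtain ⟨u1, γ1, hγ1, h1⟩ := b2 m (w.take B) (by rw [List.length_take]; omega)
    obtain ⟨t, ht, γ2, hγ2, h2⟩ := ss_word hΓ (w.drop B) γ1 hγ1
    have h3 : ∀ x, cone e (u1 ++ t) x = cone e u ((γ⁻¹ * γ2⁻¹) x) := by
      intro x
      have h4 : φ (g ^ m)⁻¹ (cone e w (γ2⁻¹ x)) = cone e (u1 ++ t) x := by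
        conv_lhs => rw [← List.take_append_drop B w]
        rw [cone_append, h1, h2, cone_append, ais]
      rw [← h4]
      have h5 := hw ((γ⁻¹ * γ2⁻¹) x)
      rw [Equiv.Perm.mul_apply, ais] at h5
      rw [Equiv.Perm.mul_apply, ← h5, map_inv, ias]
    have h6 := cone_inj (u1 ++ t) u _ h3
    have h7 := congrArg List.length h6
    rw [List.length_append, ht, List.length_drop, hu] at h7
    omega
  choose F hF using key
  have : Finite {w : List D // w.length ≤ 2 * B} := List.finite_length_le D (2 * B)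
  have : Finite {u : List D // u.length = B} := List.finite_length_eq D B
  obtain ⟨m, m', hne, hmm⟩ := Finite.exists_ne_map_eq_of_infinite F
  wlog hlt : m < m' generalizing m m'
  · exact this m' m hne.symm hmm.symm (by omega)
  refine ⟨m' - m, by omega, fun u hu => ?_⟩
  obtain ⟨γ, hγ, h1⟩ := hF m ⟨u, hu⟩
  obtain ⟨γ', hγ', h2⟩ := hF m' ⟨u, hu⟩
  refine ⟨γ⁻¹ * γ', Γ.mul_mem (Γ.inv_mem hγ) hγ', fun x => ?_⟩
  have h3 : φ (g ^ m) (φ (g ^ (m' - m)) (cone e u x)) =
      φ (g ^ m) (cone e u ((γ⁻¹ * γ') x)) := by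
    rw [← Equiv.Perm.mul_apply, ← map_mul, ← pow_add, Nat.add_sub_cancel' hlt.le, h1, h2, ← hmm,
      Equiv.Perm.mul_apply, ais]
  exact (φ (g ^ m)).injective h3

/-- **elements with bounded powers have finite order if `Γ` is a torsion group** -/
theorem finOrder_of_bounded [Nontrivial D] [Nonempty C] [Finite D] (hΓ : SelfSimilar e Γ)
    (hT : ∀ γ ∈ Γ, IsOfFinOrder γ)
    (φ : G →* Equiv.Perm C) (hinj : Function.Injective φ) (hφ : ∀ g, (bad e Γ (φ g)).Finite)
    (g : G) (B : ℕ)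
    (hB : ∀ m : ℕ, (@moved G _ (Set (C → C)) (actS φ) (cls e Γ) (g ^ m)).ncard ≤ B) :
    IsOfFinOrder g := by
  obtain ⟨k, hk, h⟩ := elliptic hΓ φ hφ g B hB
  have key : ∀ u : {u : List D // u.length = B}, ∃ n : ℕ, 0 < n ∧
      ∀ x, (φ (g ^ k) ^ n) (cone e u.1 x) = cone e u.1 x := by
    rintro ⟨u, hu⟩
    obtain ⟨γ, hγ, h1⟩ := h u hu
    obtain ⟨n, hn, h2⟩ := isOfFinOrder_iff_pow_eq_one.1 (hT γ hγ)
    refine ⟨n, hn, fun x => ?_⟩
    have h3 : ∀ j : ℕ, (φ (g ^ k) ^ j) (cone e u x) = cone e u ((γ ^ j) x) := by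
      intro j
      induction j with
      | zero => rfl
      | succ j ih => rw [pow_succ', Equiv.Perm.mul_apply, ih, h1, pow_succ', Equiv.Perm.mul_apply]
    rw [h3, h2, Equiv.Perm.one_apply]
  choose n hn hfix using key
  have : Finite {u : List D // u.length = B} := List.finite_length_eq D B
  have := Fintype.ofFinite {u : List D // u.length = B}
  have h1 : φ (g ^ k) ^ (∏ u, n u) = 1 := by
    ext y
    obtain ⟨u, hu, x, rfl⟩ := level e B y
    obtain ⟨c, hc⟩ := Finset.dvd_prod_of_mem n (Finset.mem_univ (⟨u, hu⟩ : {u : List D // u.length = B}))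
    rw [hc, pow_mul]
    have h2 : ∀ j : ℕ, ((φ (g ^ k) ^ n ⟨u, hu⟩) ^ j) (cone e u x) = cone e u x := by
      intro j
      induction j with
      | zero => rfl
      | succ j ih => rw [pow_succ', Equiv.Perm.mul_apply, ih]; exact hfix ⟨u, hu⟩ x
    rw [h2, Equiv.Perm.one_apply]
  rw [← map_pow, ← pow_mul] at h1
  have h2 : g ^ (k * ∏ u, n u) = 1 := hinj (by rw [h1, map_one])
  exact isOfFinOrder_iff_pow_eq_one.2
    ⟨_, Nat.mul_pos hk (Finset.prod_pos fun u _ => hn u), h2⟩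

end

end Pool.Agent.X270.Comm
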