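import Mathlib

/-!
# Commensurated subsets: powers of an element are bounded or grow linearly
-/

set_option autoImplicit false

open scoped Classical

namespace Pool.Agent.X270.Comm

universe u v

section

variable {G : Type u} [Group G] {X : Type v} [MulAction G X]

/-- the symmetric difference of `g A` and `A` -/
def moved (A : Set X) (g : G) : Set X := {x | ¬ (g⁻¹ • x ∈ A ↔ x ∈ A)}

/-- `g A` and `A` differ by finitely many points, for every `g` -/
def Commensurated (G : Type u) [Group G] {X : Type v} [MulAction G X] (A : Set X) : Prop :=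
  ∀ g : G, (moved A g).Finite

variable {A : Set X}

/-- the cocycle `1_{gA} - 1_A` -/
noncomputable def coc (hA : Commensurated G A) (g : G) : X →₀ ℤ :=
  Finsupp.ofSupportFinite
    (fun x => (if g⁻¹ • x ∈ A then (1 : ℤ) else 0) - (if x ∈ A then 1 else 0))
    ((hA g).subset (by
      intro x hx
      simp only [Function.mem_support, ne_eq] at hx
      intro h
      apply hx
      by_cases h1 : x ∈ A
      · rw [if_pos h1, if_pos (h.2 h1), sub_self]
      · rw [if_neg h1, if_neg fun h2 => h1 (h.1 h2), sub_self]))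

theorem coc_apply (hA : Commensurated G A) (g : G) (x : X) :
    coc hA g x = (if g⁻¹ • x ∈ A then (1 : ℤ) else 0) - (if x ∈ A then 1 else 0) := rfl

/-- the action on finitely supported functions -/
noncomputable def sh (g : G) : (X →₀ ℤ) →+ (X →₀ ℤ) := Finsupp.mapDomain.addMonoidHom (g • ·)

theorem sh_apply (g : G) (m : X →₀ ℤ) (x : X) : sh g m x = m (g⁻¹ • x) := by
  unfold sh
  change Finsupp.mapDomain (g • ·) m x = _
  have h := Finsupp.mapDomain_apply (f := ((g • ·) : X → X)) (MulAction.injective g) m (g⁻¹ • x)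
  simpa using h

theorem sh_mul (g h : G) (m : X →₀ ℤ) : sh (g * h) m = sh g (sh h m) := by
  ext x
  simp only [sh_apply, mul_inv_rev, mul_smul]

theorem sh_one (m : X →₀ ℤ) : sh (1 : G) m = m := by
  ext x
  simp only [sh_apply, inv_one, one_smul]

theorem sh_single (g : G) (x : X) (a : ℤ) :
    sh g (Finsupp.single x a) = Finsupp.single (g • x) a := by
  unfold sh
  change Finsupp.mapDomain (g • ·) (Finsupp.single x a) = _
  rw [Finsupp.mapDomain_single]

theorem coc_mul (hA : Commensurated G A) (g h : G) :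
    coc hA (g * h) = coc hA g + sh g (coc hA h) := by
  ext x
  simp only [Finsupp.add_apply, sh_apply, coc_apply, mul_inv_rev, mul_smul]
  ring

theorem coc_one (hA : Commensurated G A) : coc hA (1 : G) = 0 := by
  ext x
  simp [coc_apply]

/-- the `ℓ¹`-norm -/
noncomputable def nm {Y : Type v} (m : Y →₀ ℤ) : ℕ := ∑ x ∈ m.support, (m x).natAbs

theorem nm_eq {Y : Type v} (m : Y →₀ ℤ) {s : Finset Y} (h : m.support ⊆ s) :
    nm m = ∑ x ∈ s, (m x).natAbs := by
  unfold nm
  apply Finset.sum_subset h
  intro x _ hx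
  rw [Finsupp.notMem_support_iff.1 hx, Int.natAbs_zero]

theorem nm_add {Y : Type v} (m n : Y →₀ ℤ) : nm (m + n) ≤ nm m + nm n := by
  rw [nm_eq (m + n) (s := m.support ∪ n.support) Finsupp.support_add,
    nm_eq m (s := m.support ∪ n.support) Finset.subset_union_left,
    nm_eq n (s := m.support ∪ n.support) Finset.subset_union_right, ← Finset.sum_add_distrib]
  exact Finset.sum_le_sum fun x _ => by
    rw [Finsupp.add_apply]
    exact Int.natAbs_add_le _ _

theorem nm_neg {Y : Type v} (m : Y →₀ ℤ) : nm (-m) = nm m := by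
  unfold nm
  rw [Finsupp.support_neg]
  exact Finset.sum_congr rfl fun x _ => by rw [Finsupp.neg_apply, Int.natAbs_neg]

theorem nm_single {Y : Type v} (y : Y) (a : ℤ) : nm (Finsupp.single y a) = a.natAbs := by
  rw [nm_eq _ (s := {y}) Finsupp.support_single_subset, Finset.sum_singleton,
    Finsupp.single_eq_same]

theorem nm_map {Y Z : Type v} (f : Y → Z) (m : Y →₀ ℤ) : nm (Finsupp.mapDomain f m) ≤ nm m := by
  induction m using Finsupp.induction with
  | zero => simp [nm]
  | single_add a b m ha hb ih =>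
    rw [Finsupp.mapDomain_add, Finsupp.mapDomain_single]
    refine (nm_add _ _).trans ?_
    rw [nm_single]
    have h1 : nm (Finsupp.single a b + m) = b.natAbs + nm m := by
      have hs : (Finsupp.single a b + m).support ⊆ insert a m.support := by
        refine Finsupp.support_add.trans ?_
        intro x hx
        rcases Finset.mem_union.1 hx with hx | hx
        · rw [Finset.mem_insert]
          exact Or.inl (Finset.mem_singleton.1 (Finsupp.support_single_subset hx))
        · exact Finset.mem_insert_of_mem hx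
      rw [nm_eq _ hs, Finset.sum_insert ha]
      congr 1
      · rw [Finsupp.add_apply, Finsupp.single_eq_same, Finsupp.notMem_support_iff.1 ha, add_zero]
      · unfold nm
        refine Finset.sum_congr rfl fun x hx => ?_
        rw [Finsupp.add_apply, Finsupp.single_eq_of_ne, zero_add]
        rintro rfl
        exact ha hx
    rw [h1]
    omega

theorem natAbs_le_nm {Y : Type v} (m : Y →₀ ℤ) (y : Y) : (m y).natAbs ≤ nm m := by
  by_cases h : y ∈ m.support
  · exact Finset.single_le_sum (f := fun x => (m x).natAbs) (fun _ _ => Nat.zero_le _) h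
  · rw [Finsupp.notMem_support_iff.1 h, Int.natAbs_zero]
    exact Nat.zero_le _

theorem support_coc (hA : Commensurated G A) (g : G) :
    ((coc hA g).support : Set X) = moved A g := by
  ext x
  simp only [Finset.mem_coe, Finsupp.mem_support_iff, coc_apply, moved, Set.mem_ofPred_eq, ne_eq]
  by_cases h1 : x ∈ A <;> by_cases h2 : g⁻¹ • x ∈ A <;> simp [h1, h2]

theorem nm_coc (hA : Commensurated G A) (g : G) : nm (coc hA g) = (moved A g).ncard := by
  rw [← support_coc hA, Set.ncard_coe_finset]
  unfold nm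
  rw [Finset.card_eq_sum_ones]
  refine Finset.sum_congr rfl fun x hx => ?_
  rw [Finsupp.mem_support_iff, coc_apply] at hx
  rw [coc_apply]
  by_cases h1 : x ∈ A <;> by_cases h2 : g⁻¹ • x ∈ A <;> simp [h1, h2] at hx ⊢

theorem nm_sh (g : G) (m : X →₀ ℤ) : nm (sh g m) ≤ nm m := nm_map _ m

theorem moved_mul (hA : Commensurated G A) (g h : G) :
    (moved A (g * h)).ncard ≤ (moved A g).ncard + (moved A h).ncard := by
  rw [← nm_coc hA, ← nm_coc hA, ← nm_coc hA, coc_mul]
  exact (nm_add _ _).trans (Nat.add_le_add_left (nm_sh _ _) _)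

theorem moved_inv (hA : Commensurated G A) (g : G) :
    (moved A g⁻¹).ncard ≤ (moved A g).ncard := by
  have h := coc_mul hA g⁻¹ g
  rw [inv_mul_cancel, coc_one] at h
  have h2 : coc hA g⁻¹ = - sh g⁻¹ (coc hA g) := by
    rw [eq_neg_iff_add_eq_zero, ← h]
  rw [← nm_coc hA, ← nm_coc hA, h2, nm_neg]
  exact nm_sh _ _

theorem moved_pow (hA : Commensurated G A) (g : G) (k : ℕ) :
    (moved A (g ^ k)).ncard ≤ k * (moved A g).ncard := by
  induction k with
  | zero =>
    rw [pow_zero, ← nm_coc hA, coc_one]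
    simp [nm]
  | succ k ih =>
    rw [pow_succ]
    refine (moved_mul hA _ _).trans ?_
    rw [Nat.succ_mul]
    omega

/-- the map to the orbits of `g` -/
noncomputable def orb (g : G) (X : Type v) [MulAction G X] :
    X → MulAction.orbitRel.Quotient (Subgroup.zpowers g) X := Quotient.mk''

theorem orb_smul (g : G) (x : X) : orb g X (g • x) = orb g X x := by
  unfold orb
  refine Quotient.sound' ?_
  exact ⟨⟨g, Subgroup.mem_zpowers g⟩, rfl⟩

noncomputable def po (g : G) :
    (X →₀ ℤ) →+ (MulAction.orbitRel.Quotient (Subgroup.zpowers g) X →₀ ℤ) :=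
  Finsupp.mapDomain.addMonoidHom (orb g X)

theorem po_sh (g : G) (m : X →₀ ℤ) : po g (sh g m) = po g m := by
  unfold po sh
  change Finsupp.mapDomain _ (Finsupp.mapDomain _ m) = Finsupp.mapDomain _ m
  rw [← Finsupp.mapDomain_comp]
  congr 1
  funext x
  exact orb_smul g x

theorem po_coc_pow (hA : Commensurated G A) (g : G) (n : ℕ) :
    po g (coc hA (g ^ n)) = n • po g (coc hA g) := by
  induction n with
  | zero => rw [pow_zero, coc_one, map_zero, zero_smul]
  | succ n ih => rw [pow_succ', coc_mul, map_add, po_sh, ih, succ_nsmul']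

/-- `u ↦ g u - u` -/
noncomputable def df (g : G) : (X →₀ ℤ) →+ (X →₀ ℤ) := sh g - AddMonoidHom.id _

theorem single_mem (g : G) (x : X) (a k : ℤ) :
    Finsupp.single (g ^ k • x) a - Finsupp.single x a ∈ (df g : (X →₀ ℤ) →+ (X →₀ ℤ)).range := by
  induction k using Int.induction_on with
  | zero => rw [zpow_zero, one_smul, sub_self]; exact zero_mem _
  | succ k ih =>
    have h1 : Finsupp.single (g ^ ((k : ℤ) + 1) • x) a - Finsupp.single (g ^ (k : ℤ) • x) a =
        df g (Finsupp.single (g ^ (k : ℤ) • x) a) := by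
      unfold df
      rw [AddMonoidHom.sub_apply, AddMonoidHom.id_apply, sh_single, ← mul_smul, ← zpow_one_add,
        add_comm]
    have h2 := add_mem (AddMonoidHom.mem_range.2 ⟨_, h1.symm⟩) ih
    rwa [sub_add_sub_cancel] at h2
  | pred k ih =>
    have h1 : Finsupp.single (g ^ (-(k : ℤ)) • x) a - Finsupp.single (g ^ (-(k : ℤ) - 1) • x) a =
        df g (Finsupp.single (g ^ (-(k : ℤ) - 1) • x) a) := by
      unfold df
      rw [AddMonoidHom.sub_apply, AddMonoidHom.id_apply, sh_single, ← mul_smul, ← zpow_one_add]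
      congr 3
      congr 1
      ring
    have h2 := sub_mem ih (AddMonoidHom.mem_range.2 ⟨_, h1.symm⟩)
    rwa [sub_sub_sub_cancel_left] at h2

theorem mem_range_of_po (g : G) (m : X →₀ ℤ) (h : po g m = 0) :
    m ∈ (df g : (X →₀ ℤ) →+ (X →₀ ℤ)).range := by
  have key : ∀ m : X →₀ ℤ, m - Finsupp.mapDomain (fun x => (orb g X x).out) m ∈
      (df g : (X →₀ ℤ) →+ (X →₀ ℤ)).range := by
    intro m
    induction m using Finsupp.induction_linear with
    | zero => rw [Finsupp.mapDomain_zero, sub_zero]; exact zero_mem _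
    | add m n hm hn =>
      rw [Finsupp.mapDomain_add, add_sub_add_comm]
      exact add_mem hm hn
    | single x a =>
      rw [Finsupp.mapDomain_single]
      have h1 : (orb g X x).out ∈ MulAction.orbit (Subgroup.zpowers g) x := by
        have : MulAction.orbitRel (Subgroup.zpowers g) X (orb g X x).out x := by
          apply Quotient.exact'
          exact Quotient.out_eq' _
        exact this
      obtain ⟨⟨c, hc⟩, hcx⟩ := h1
      obtain ⟨k, rfl⟩ := Subgroup.mem_zpowers_iff.1 hc
      have hcx' : g ^ k • x = (orb g X x).out := hcx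
      rw [← hcx']
      have h2 := neg_mem (single_mem g x a k)
      rwa [neg_sub] at h2
  have h1 := key m
  have h2 : Finsupp.mapDomain (fun x => (orb g X x).out) m = 0 := by
    have : (fun x => (orb g X x).out) = Quotient.out ∘ orb g X := rfl
    rw [this, Finsupp.mapDomain_comp]
    have h3 : Finsupp.mapDomain (orb g X) m = 0 := h
    rw [h3, Finsupp.mapDomain_zero]
  rwa [h2, sub_zero] at h1

/-- **dichotomy**: if the powers of `g` move `A` by unbounded amounts, then linearly -/
theorem linear_of_unbounded (hA : Commensurated G A) (g : G)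
    (hg : ∀ b : ℕ, ∃ m : ℕ, b < (moved A (g ^ m)).ncard) (n : ℕ) :
    n ≤ (moved A (g ^ n)).ncard := by
  by_cases h : po g (coc hA g) = 0
  · exfalso
    obtain ⟨u, hu⟩ := AddMonoidHom.mem_range.1 (mem_range_of_po g _ h)
    have h1 : ∀ m : ℕ, coc hA (g ^ m) = sh (g ^ m) u - u := by
      intro m
      induction m with
      | zero => rw [pow_zero, coc_one, sh_one, sub_self]
      | succ m ih =>
        rw [pow_succ', coc_mul, ih, ← hu]
        unfold df
        rw [AddMonoidHom.sub_apply, AddMonoidHom.id_apply, map_sub, ← sh_mul]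
        abel
    obtain ⟨m, hm⟩ := hg (nm u + nm u)
    rw [← nm_coc hA, h1] at hm
    have h2 : nm (sh (g ^ m) u - u) ≤ nm u + nm u := by
      rw [sub_eq_add_neg]
      refine (nm_add _ _).trans ?_
      rw [nm_neg]
      exact Nat.add_le_add_right (nm_sh _ _) _
    omega
  · obtain ⟨y, hy⟩ := DFunLike.ne_iff.1 h
    have h1 : n ≤ ((po g (coc hA (g ^ n))) y).natAbs := by
      rw [po_coc_pow, Finsupp.smul_apply, nsmul_eq_mul, Int.natAbs_mul, Int.natAbs_natCast]
      have : 1 ≤ (po g (coc hA g) y).natAbs := by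
        have h2 : po g (coc hA g) y ≠ 0 := hy
        omega
      exact Nat.le_mul_of_pos_right _ this
    refine h1.trans ((natAbs_le_nm _ _).trans ?_)
    rw [← nm_coc hA]
    exact nm_map _ _

theorem linear_lt (a c : ℕ) : ∃ m : ℕ, a + m * c < 2 ^ m := by
  refine ⟨3 * (a + c + 1), ?_⟩
  have h1 : a + c + 1 + 1 ≤ 2 ^ (a + c + 1) := Nat.lt_two_pow_self
  have h2 : 2 ^ (3 * (a + c + 1)) = (2 ^ (a + c + 1)) ^ 3 := by
    rw [← pow_mul]
    congr 1
    ring
  have h3 : (a + c + 1 + 1) ^ 3 ≤ (2 ^ (a + c + 1)) ^ 3 := Nat.pow_le_pow_left h1 3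
  rw [h2]
  refine lt_of_lt_of_le ?_ h3
  nlinarith [Nat.zero_le (a * c), Nat.zero_le (a * a), Nat.zero_le (c * c),
    Nat.zero_le (a * a * c), Nat.zero_le (a * c * c), Nat.zero_le (c * c * c),
    Nat.zero_le (a * a * a)]

/-- elements with unbounded powers are not conjugate to their proper powers -/
theorem not_conj (hA : Commensurated G A) (g : G)
    (hg : ∀ b : ℕ, ∃ m : ℕ, b < (moved A (g ^ m)).ncard) {k : ℕ} (hk : 2 ≤ k) :
    ¬ IsConj g (g ^ k) := by
  intro h
  obtain ⟨x, hx⟩ := isConj_iff.1 h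
  have h1 : ∀ m : ℕ, x ^ m * g * (x ^ m)⁻¹ = g ^ k ^ m := by
    intro m
    induction m with
    | zero => simp
    | succ m ih =>
      have e : x ^ (m + 1) * g * (x ^ (m + 1))⁻¹ = x * (x ^ m * g * (x ^ m)⁻¹) * x⁻¹ := by
        rw [pow_succ']
        group
      rw [e, ih, ← conj_pow, hx, ← pow_mul, pow_succ']
  obtain ⟨m, hm⟩ := linear_lt (moved A g).ncard (2 * (moved A x).ncard)
  have h2 := linear_of_unbounded hA g hg (k ^ m)
  rw [← h1 m] at h2
  have h3 := moved_mul hA (x ^ m * g) (x ^ m)⁻¹
  have h4 := moved_mul hA (x ^ m) g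
  have h5 := moved_inv hA (x ^ m)
  have h6 := moved_pow hA x m
  have h7 : 2 ^ m ≤ k ^ m := Nat.pow_le_pow_left hk m
  nlinarith

/-- unboundedness passes to conjugates -/
theorem unbounded_conj (hA : Commensurated G A) {g h : G} (hc : IsConj g h)
    (hg : ∀ b : ℕ, ∃ m : ℕ, b < (moved A (g ^ m)).ncard) :
    ∀ b : ℕ, ∃ m : ℕ, b < (moved A (h ^ m)).ncard := by
  obtain ⟨x, hx⟩ := isConj_iff.1 hc.symm
  intro b
  obtain ⟨m, hm⟩ := hg (b + 2 * (moved A x).ncard)
  refine ⟨m, ?_⟩
  rw [← hx, conj_pow] at hm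
  have h3 := moved_mul hA (x * h ^ m) x⁻¹
  have h4 := moved_mul hA x (h ^ m)
  have h5 := moved_inv hA x
  omega

end

end Pool.Agent.X270.Comm
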